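import Mathlib
import Pool.Agent.V11241.GNSZ

namespace Pool.Agent.Results.MP_6f1842_lc.KazhdanBorel

open Set Topology Filter
open scoped InnerProductSpace ComplexConjugate
open Pool.Agent.V11241.GNSZ

/-- `Q ⊆ ℤ` is a Kazhdan set. -/
def IsKazhdan (Q : Set ℤ) : Prop :=
  ∃ ε : ℝ, 0 < ε ∧ ∀ (H : Type) [NormedAddCommGroup H] [InnerProductSpace ℂ H] [CompleteSpace H]
    (U : H ≃ₗᵢ[ℂ] H), (∃ x : H, ‖x‖ = 1 ∧ (⨆ n : Q, ‖(U ^ (n : ℤ)) x - x‖) < ε) →
      ∃ y : H, y ≠ 0 ∧ U y = y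

/-- `Q` generates `ℤ`. -/
def IsGenerating (Q : Set ℤ) : Prop := AddSubgroup.closure Q = ⊤

/-- The family of Kazhdan sets, as a subset of `{0,1}^ℤ`. -/
def K : Set (ℤ → Bool) := {χ | IsKazhdan {n | χ n = true}}

/-- The family of generating non-Kazhdan sets. -/
def notK0 : Set (ℤ → Bool) :=
  {χ | IsGenerating {n | χ n = true} ∧ ¬ IsKazhdan {n | χ n = true}}

/-- averaging combination -/
noncomputable def avg (N : ℕ) : ℤ →₀ ℂ :=
  ∑ k ∈ Finset.range N, Finsupp.single (k : ℤ) ((N : ℂ)⁻¹)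

section
variable {H : Type} [NormedAddCommGroup H] [InnerProductSpace ℂ H] (U : H ≃ₗᵢ[ℂ] H) (x : H)

/-- evaluation -/
noncomputable def ev (u : ℤ →₀ ℂ) : H := u.sum fun m a => a • (U ^ m) x

theorem inner_zpow (m n : ℤ) : ⟪(U ^ m) x, (U ^ n) x⟫_ℂ = ⟪x, (U ^ (n - m)) x⟫_ℂ := by
  have h : (U ^ n) x = (U ^ m) ((U ^ (n - m)) x) := by
    have : U ^ n = U ^ m * U ^ (n - m) := by rw [← zpow_add]; congr 1; ring
    rw [this]; rfl
  rw [h, LinearIsometryEquiv.inner_map_map]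

theorem form_eq_inner (φ : ℤ → ℂ) (hφ : ∀ m n, ⟪(U ^ m) x, (U ^ n) x⟫_ℂ = φ (n - m))
    (u v : ℤ →₀ ℂ) : form φ u v = ⟪ev U x u, ev U x v⟫_ℂ := by
  unfold form ev
  rw [Finsupp.sum_inner]
  refine Finsupp.sum_congr fun m _ => ?_
  rw [Finsupp.inner_sum]
  refine Finsupp.sum_congr fun n _ => ?_
  rw [inner_smul_left, inner_smul_right, hφ]
  ring

theorem ev_avg (N : ℕ) : ev U x (avg N) = (N : ℂ)⁻¹ • ∑ k ∈ Finset.range N, (U ^ k) x := by
  unfold ev avg
  rw [Finset.smul_sum]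
  rw [← Finsupp.sum_finsetSum_index (by simp) (by intros; rw [add_smul])]
  refine Finset.sum_congr rfl fun k _ => ?_
  rw [Finsupp.sum_single_index (by simp), zpow_natCast]

end

theorem PD.norm_le {φ : ℤ → ℂ} (h : PD φ) (n : ℤ) : ‖φ n‖ ≤ 1 := by
  obtain ⟨H, _, _, _, U, x, hU⟩ := exists_unitary φ h
  have h0 : ‖x‖ = 1 := by
    have := hU 0 0
    rw [sub_zero, h.one] at this
    have h1 : ⟪x, x⟫_ℂ = 1 := by simpa using this
    have h2 := inner_self_eq_norm_sq (𝕜 := ℂ) x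
    rw [h1] at h2
    have h3 : ‖x‖ ^ 2 = 1 := by rw [← h2]; simp
    nlinarith [norm_nonneg x]
  have h1 := hU 0 n
  rw [sub_zero, zpow_zero] at h1
  rw [← h1]
  refine (norm_inner_le_norm _ _).trans ?_
  simp [h0]

theorem isClosed_PD : IsClosed {φ : ℤ → ℂ | PD φ} := by
  have h : {φ : ℤ → ℂ | PD φ} = {φ | φ 0 = 1} ∩ (⋂ n : ℤ, {φ | φ (-n) = conj (φ n)}) ∩
      ⋂ u : ℤ →₀ ℂ, {φ | 0 ≤ (form φ u u).re} := by
    ext φ
    simp only [mem_inter_iff, mem_iInter, mem_ofPred_eq]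
    constructor
    · intro h; exact ⟨⟨h.one, h.symm⟩, h.nonneg⟩
    · rintro ⟨⟨h1, h2⟩, h3⟩; exact ⟨h1, h2, h3⟩
  rw [h]
  refine (IsClosed.inter ?_ ?_).inter ?_
  · exact isClosed_eq (continuous_apply 0) continuous_const
  · exact isClosed_iInter fun n => isClosed_eq (continuous_apply _)
      (Complex.continuous_conj.comp (continuous_apply _))
  · refine isClosed_iInter fun u => isClosed_le continuous_const ?_
    exact Complex.continuous_re.comp (by
      unfold form Finsupp.sum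
      fun_prop)

theorem isCompact_PD : IsCompact {φ : ℤ → ℂ | PD φ} := by
  refine (isCompact_univ_pi fun _ : ℤ => isCompact_closedBall (0 : ℂ) 1).of_isClosed_subset
    isClosed_PD ?_
  intro φ hφ n _
  rw [mem_closedBall_zero_iff]
  exact PD.norm_le hφ n

/-- The closed sets. -/
def F (i N k : ℕ) : Set (ℤ → Bool) :=
  {χ | ∃ φ : ℤ → ℂ, PD φ ∧ (form φ (avg (N + 1)) (avg (N + 1))).re ≤ 1 / 2 - 1 / ((k : ℝ) + 1) ∧
    ∀ n, χ n = true → 1 - (φ n).re ≤ 1 / ((i : ℝ) + 1)}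

theorem isClosed_F (i N k : ℕ) : IsClosed (F i N k) := by
  let C : Set ((ℤ → Bool) × (ℤ → ℂ)) := {p | PD p.2 ∧
    (form p.2 (avg (N + 1)) (avg (N + 1))).re ≤ 1 / 2 - 1 / ((k : ℝ) + 1) ∧
    ∀ n, p.1 n = true → 1 - (p.2 n).re ≤ 1 / ((i : ℝ) + 1)}
  have hC : IsCompact C := by
    refine (isCompact_univ.prod isCompact_PD).of_isClosed_subset ?_
      (fun p hp => ⟨mem_univ _, hp.1⟩)
    have hdec : C = (Prod.snd ⁻¹' {φ | PD φ}) ∩
        {p | (form p.2 (avg (N + 1)) (avg (N + 1))).re ≤ 1 / 2 - 1 / ((k : ℝ) + 1)} ∩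
        ⋂ n : ℤ, ({p : (ℤ → Bool) × (ℤ → ℂ) | p.1 n = false} ∪
          {p : (ℤ → Bool) × (ℤ → ℂ) | 1 - (p.2 n).re ≤ 1 / ((i : ℝ) + 1)}) := by
      ext p
      simp only [C, mem_inter_iff, mem_iInter, mem_ofPred_eq, mem_preimage, mem_union]
      constructor
      · rintro ⟨h1, h2, h3⟩
        refine ⟨⟨h1, h2⟩, fun n => ?_⟩
        cases hn : p.1 n with
        | false => exact Or.inl rfl
        | true => exact Or.inr (h3 n hn)
      · rintro ⟨⟨h1, h2⟩, h3⟩
        refine ⟨h1, h2, fun n hn => ?_⟩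
        rcases h3 n with h | h
        · rw [hn] at h; exact absurd h (by simp)
        · exact h
    rw [hdec]
    refine ((isClosed_PD.preimage continuous_snd).inter ?_).inter ?_
    · refine isClosed_le ?_ continuous_const
      refine Complex.continuous_re.comp ?_
      unfold form Finsupp.sum
      fun_prop
    · refine isClosed_iInter fun n => IsClosed.union ?_ ?_
      · exact isClosed_eq (by fun_prop) continuous_const
      · refine isClosed_le ?_ continuous_const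
        exact continuous_const.sub (Complex.continuous_re.comp
          ((continuous_apply n).comp continuous_snd))
  have : F i N k = Prod.fst '' C := by
    ext χ
    constructor
    · rintro ⟨φ, h⟩; exact ⟨(χ, φ), h, rfl⟩
    · rintro ⟨⟨χ', φ⟩, h, rfl⟩; exact ⟨φ, h⟩
  rw [this]
  exact (hC.image continuous_fst).isClosed

/-- If `Q` is not Kazhdan then it belongs to all the `F_σ` sets. -/
theorem mem_F_of_not_kazhdan {χ : ℤ → Bool} (h : ¬ IsKazhdan {n | χ n = true}) (i : ℕ) :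
    ∃ N k, χ ∈ F i N k := by
  unfold IsKazhdan at h
  push Not at h
  obtain ⟨H, _, _, _, U, ⟨x, hx1, hx⟩, hfix⟩ := h (1 / ((i : ℝ) + 1)) (by positivity)
  set φ : ℤ → ℂ := fun n => ⟪x, (U ^ n) x⟫_ℂ with hφdef
  have hφ : ∀ m n, ⟪(U ^ m) x, (U ^ n) x⟫_ℂ = φ (n - m) := fun m n => inner_zpow U x m n
  have hPD : PD φ := by
    refine ⟨?_, ?_, ?_⟩
    · simp [hφdef, hx1, inner_self_eq_norm_sq_to_K]
    · intro n
      have h1 : φ (-n) = ⟪(U ^ n) x, (U ^ (0 : ℤ)) x⟫_ℂ := by rw [hφ]; simp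
      rw [h1, zpow_zero, hφdef]
      simp only [LinearIsometryEquiv.coe_one, id_eq]
      rw [inner_conj_symm]
    · intro u
      rw [form_eq_inner U x φ hφ]
      exact inner_self_nonneg (𝕜 := ℂ)
  -- averages tend to zero
  have htend : Tendsto (fun N : ℕ => ‖ev U x (avg N)‖) atTop (𝓝 0) := by
    have h1 := ContinuousLinearMap.tendsto_birkhoffAverage_orthogonalProjection
      (U : H →L[ℂ] H) (by
        refine ContinuousLinearMap.opNorm_le_bound _ zero_le_one fun y => ?_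
        simp) x
    have h2 : (((U : H →L[ℂ] H).eqLocus (1 : H →L[ℂ] H)).orthogonalProjectionOnto x : H) = 0 := by
      by_contra hne
      refine hfix _ hne ?_
      exact (((U : H →L[ℂ] H).eqLocus (1 : H →L[ℂ] H)).orthogonalProjectionOnto x).2
    rw [h2] at h1
    have h3 := h1.norm
    rw [norm_zero] at h3
    refine h3.congr fun N => ?_
    rw [ev_avg]
    congr 1
    unfold birkhoffAverage birkhoffSum
    congr 1
    refine Finset.sum_congr rfl fun k _ => ?_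
    have : ∀ k : ℕ, (⇑(U : H →L[ℂ] H))^[k] x = (U ^ k) x := by
      intro k
      induction k with
      | zero => rfl
      | succ k ih => rw [Function.iterate_succ_apply', ih, pow_succ']; rfl
    exact this k
  have hev : ∀ᶠ N in atTop, ‖ev U x (avg (N + 1))‖ < 1 / 2 :=
    ((tendsto_add_atTop_iff_nat 1).2 htend).eventually (gt_mem_nhds (by norm_num))
  obtain ⟨N, hN⟩ := hev.exists
  refine ⟨N, 3, φ, hPD, ?_, ?_⟩
  · rw [form_eq_inner U x φ hφ]
    have : (⟪ev U x (avg (N + 1)), ev U x (avg (N + 1))⟫_ℂ).re = ‖ev U x (avg (N + 1))‖ ^ 2 := by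
      rw [inner_self_eq_norm_sq_to_K]
      norm_cast
    rw [this]
    have h5 := norm_nonneg (ev U x (avg (N + 1)))
    norm_num
    nlinarith
  · intro n hn
    have hbdd : BddAbove (range fun m : {n | χ n = true} => ‖(U ^ (m : ℤ)) x - x‖) := by
      refine ⟨2, ?_⟩
      rintro _ ⟨m, rfl⟩
      refine (norm_sub_le _ _).trans ?_
      rw [LinearIsometryEquiv.norm_map, hx1]; norm_num
    have h1 : ‖(U ^ n) x - x‖ ≤ ⨆ m : {n | χ n = true}, ‖(U ^ (m : ℤ)) x - x‖ :=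
      le_ciSup hbdd (⟨n, hn⟩ : {n | χ n = true})
    have h2 := h1.trans_lt hx
    have h3 : ‖(U ^ n) x - x‖ ^ 2 = 2 - 2 * (φ n).re := by
      rw [@norm_sub_sq ℂ, LinearIsometryEquiv.norm_map, hx1]
      have : RCLike.re ⟪(U ^ n) x, x⟫_ℂ = (φ n).re := by
        rw [← inner_conj_symm, RCLike.conj_re]; rfl
      rw [this]; ring
    have h4 := norm_nonneg ((U ^ n) x - x)
    have h5 : 1 / ((i : ℝ) + 1) ≤ 1 := by
      rw [div_le_one (by positivity)]
      have : (0 : ℝ) ≤ i := Nat.cast_nonneg i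
      linarith
    nlinarith

/-- Zpow of a restricted unitary. -/
theorem restrict_zpow {H : Type} [NormedAddCommGroup H] [InnerProductSpace ℂ H]
    (U : H ≃ₗᵢ[ℂ] H) (W : Submodule ℂ H) (U' : W ≃ₗᵢ[ℂ] W) (h : ∀ w : W, (U' w : H) = U w)
    (n : ℤ) (w : W) : (((U' ^ n) w : W) : H) = (U ^ n) (w : H) := by
  have hs : ∀ w : W, (U'.symm w : H) = U.symm w := by
    intro w
    rw [LinearIsometryEquiv.eq_symm_apply, ← h, LinearIsometryEquiv.apply_symm_apply]
  induction n with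
  | zero => simp
  | succ n ih =>
    rw [add_comm, zpow_add, zpow_add, zpow_one, zpow_one]
    show ((U' ((U' ^ (n : ℤ)) w) : W) : H) = U ((U ^ (n : ℤ)) w)
    rw [h, ih]
  | pred n ih =>
    rw [sub_eq_add_neg, add_comm, zpow_add, zpow_add, zpow_neg_one, zpow_neg_one]
    show ((U'.symm ((U' ^ (-(n : ℤ))) w) : W) : H) = U.symm ((U ^ (-(n : ℤ))) w)
    rw [hs, ih]

/-- If `Q` belongs to all the `F_σ` sets then it is not Kazhdan. -/
theorem not_kazhdan_of_mem_F {χ : ℤ → Bool} (h : ∀ i, ∃ N k, χ ∈ F i N k) :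
    ¬ IsKazhdan {n | χ n = true} := by
  rintro ⟨ε, hε, hK⟩
  obtain ⟨i, hi⟩ := exists_nat_one_div_lt (show (0 : ℝ) < ε ^ 2 / 4 by positivity)
  obtain ⟨N, k, φ, hPD, hN, hQ⟩ := h i
  obtain ⟨H, _, _, _, U, x, hφ⟩ := exists_unitary φ hPD
  have hx : ‖x‖ ^ 2 = 1 := by
    have h1 := hφ 0 0
    rw [sub_zero, hPD.one] at h1
    have h2 := inner_self_eq_norm_sq (𝕜 := ℂ) x
    have h3 : ⟪x, x⟫_ℂ = 1 := by simpa using h1
    rw [← h2, h3]; simp
  let S : Submodule ℂ H := (U : H →L[ℂ] H).eqLocus (1 : H →L[ℂ] H)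
  have hS : ∀ s, s ∈ S ↔ U s = s := fun s => Iff.rfl
  let W : Submodule ℂ H := Sᗮ
  have hUW : ∀ w ∈ W, U w ∈ W := by
    intro w hw
    rw [Submodule.mem_orthogonal] at hw ⊢
    intro s hs
    have h1 := hw s hs
    rw [← (hS s).1 hs, LinearIsometryEquiv.inner_map_map]
    exact h1
  have hUW' : ∀ w ∈ W, U.symm w ∈ W := by
    intro w hw
    rw [Submodule.mem_orthogonal] at hw ⊢
    intro s hs
    have h1 := hw s hs
    have h2 : ⟪s, U.symm w⟫_ℂ = ⟪U s, U (U.symm w)⟫_ℂ := by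
      rw [LinearIsometryEquiv.inner_map_map]
    rw [h2, LinearIsometryEquiv.apply_symm_apply, (hS s).1 hs]
    exact h1
  let U' : W ≃ₗᵢ[ℂ] W :=
    { toFun := fun w => ⟨U w, hUW w w.2⟩
      invFun := fun w => ⟨U.symm w, hUW' w w.2⟩
      map_add' := fun a b => Subtype.ext (by simp)
      map_smul' := fun c a => Subtype.ext (by simp)
      left_inv := fun a => Subtype.ext (by simp)
      right_inv := fun a => Subtype.ext (by simp)
      norm_map' := fun a => by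
        show ‖U (a : H)‖ = ‖(a : H)‖
        exact U.norm_map _ }
  have hU' : ∀ w : W, (U' w : H) = U w := fun w => rfl
  -- the decomposition
  set x0 : S := S.orthogonalProjectionOnto x with hx0
  have hx1W : x - (x0 : H) ∈ W := by
    exact Submodule.sub_starProjection_mem_orthogonal (K := S) x
  have hin : ∀ s ∈ S, ⟪s, ev U x (avg (N + 1))⟫_ℂ = ⟪s, x⟫_ℂ := by
    intro s hs
    rw [ev_avg, inner_smul_right, inner_sum]
    have h1 : ∀ k ∈ Finset.range (N + 1), ⟪s, (U ^ k) x⟫_ℂ = ⟪s, x⟫_ℂ := by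
      intro k hk
      clear hk
      have h2 : (U ^ k) s = s := by
        induction k with
        | zero => rfl
        | succ k ih =>
          rw [pow_succ']
          show U ((U ^ k) s) = s
          rw [ih]; exact hs
      conv_lhs => rw [← h2]
      rw [LinearIsometryEquiv.inner_map_map]
    rw [Finset.sum_congr rfl h1, Finset.sum_const, Finset.card_range, nsmul_eq_mul, ← mul_assoc,
      inv_mul_cancel₀ (by exact_mod_cast Nat.succ_ne_zero N), one_mul]
  have hnorm0 : ‖(x0 : H)‖ ^ 2 < 1 / 2 := by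
    have h1 : ‖ev U x (avg (N + 1))‖ ^ 2 < 1 / 2 := by
      have h2 := inner_self_eq_norm_sq (𝕜 := ℂ) (ev U x (avg (N + 1)))
      rw [← form_eq_inner U x φ hφ] at h2
      have h3 : (0 : ℝ) < 1 / ((k : ℝ) + 1) := by positivity
      rw [← h2]
      show (form φ (avg (N + 1)) (avg (N + 1))).re < 1 / 2
      linarith
    have h4 : ‖(x0 : H)‖ ^ 2 ≤ ‖(x0 : H)‖ * ‖ev U x (avg (N + 1))‖ := by
      have h5 : ⟪(x0 : H), ev U x (avg (N + 1))⟫_ℂ = ⟪(x0 : H), (x0 : H)⟫_ℂ := by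
        rw [hin _ x0.2]
        have h6 : ⟪(x0 : H), x - (x0 : H)⟫_ℂ = 0 := (Submodule.mem_orthogonal _ _).1 hx1W _ x0.2
        rw [inner_sub_right, sub_eq_zero] at h6
        exact h6
      have h7 := norm_inner_le_norm (𝕜 := ℂ) (x0 : H) (ev U x (avg (N + 1)))
      rw [h5] at h7
      have h8 := RCLike.re_le_norm (⟪(x0 : H), (x0 : H)⟫_ℂ)
      rw [inner_self_eq_norm_sq] at h8
      exact h8.trans h7
    by_cases hz : ‖(x0 : H)‖ = 0
    · rw [hz]; norm_num
    · have hpos : 0 < ‖(x0 : H)‖ := lt_of_le_of_ne (norm_nonneg _) (Ne.symm hz)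
      have h8 : ‖(x0 : H)‖ ≤ ‖ev U x (avg (N + 1))‖ := by
        have : ‖(x0 : H)‖ * ‖(x0 : H)‖ ≤ ‖(x0 : H)‖ * ‖ev U x (avg (N + 1))‖ := by
          rw [← sq]; exact h4
        exact le_of_mul_le_mul_left this hpos
      nlinarith
  have hnorm1 : 1 / 2 < ‖x - (x0 : H)‖ ^ 2 := by
    have h6 : ⟪(x0 : H), x - (x0 : H)⟫_ℂ = 0 := (Submodule.mem_orthogonal _ _).1 hx1W _ x0.2
    have h9 : ‖(x0 : H) + (x - (x0 : H))‖ ^ 2 = ‖(x0 : H)‖ ^ 2 + ‖x - (x0 : H)‖ ^ 2 := by
      rw [@norm_add_sq ℂ, h6]; simp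
    rw [add_sub_cancel, hx] at h9
    linarith
  have hpos1 : 0 < ‖x - (x0 : H)‖ := by
    by_contra hcon
    have : ‖x - (x0 : H)‖ = 0 := le_antisymm (not_lt.1 hcon) (norm_nonneg _)
    rw [this] at hnorm1; norm_num at hnorm1
  -- the unit vector in `W`
  let y : W := ((‖x - (x0 : H)‖ : ℂ)⁻¹) • ⟨x - (x0 : H), hx1W⟩
  have hy : (y : H) = ((‖x - (x0 : H)‖ : ℂ)⁻¹) • (x - (x0 : H)) := rfl
  have hy1 : ‖y‖ = 1 := by
    have : ‖y‖ = ‖(y : H)‖ := rfl
    rw [this, hy, norm_smul, norm_inv, Complex.norm_real, norm_norm, inv_mul_cancel₀ hpos1.ne']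
  have hfixn : ∀ n : ℤ, (U ^ n) (x0 : H) = x0 := by
    intro n
    have h0 : U (x0 : H) = x0 := x0.2
    have h0' : U.symm (x0 : H) = x0 := by
      rw [LinearIsometryEquiv.symm_apply_eq, h0]
    induction n with
    | zero => rfl
    | succ n ih =>
      rw [add_comm, zpow_add, zpow_one]
      show U ((U ^ (n : ℤ)) _) = _
      rw [ih, h0]
    | pred n ih =>
      rw [sub_eq_add_neg, add_comm, zpow_add, zpow_neg_one]
      show U.symm ((U ^ (-(n : ℤ))) _) = _
      rw [ih, h0']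
  have hle : ∀ n : {n | χ n = true}, ‖(U' ^ (n : ℤ)) y - y‖ ≤ Real.sqrt (4 * (1 / ((i : ℝ) + 1))) := by
    rintro ⟨n, hn⟩
    have h1 : ‖(U' ^ n) y - y‖ = ‖(U ^ n) (y : H) - (y : H)‖ := by
      have : ‖(U' ^ n) y - y‖ = ‖((((U' ^ n) y - y : W)) : H)‖ := rfl
      rw [this, Submodule.coe_sub, restrict_zpow U W U' hU']
    show ‖(U' ^ n) y - y‖ ≤ _
    rw [h1]
    have h2 : (U ^ n) (y : H) - (y : H) = ((‖x - (x0 : H)‖ : ℂ)⁻¹) • ((U ^ n) x - x) := by
      rw [hy, map_smul, map_sub, hfixn, ← smul_sub]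
      congr 1
      abel
    rw [h2, norm_smul, norm_inv, Complex.norm_real, norm_norm]
    apply Real.le_sqrt_of_sq_le
    rw [mul_pow, inv_pow]
    have h3 : ‖(U ^ n) x - x‖ ^ 2 = 2 - 2 * (φ n).re := by
      rw [@norm_sub_sq ℂ, LinearIsometryEquiv.norm_map, hx]
      have : RCLike.re ⟪(U ^ n) x, x⟫_ℂ = (φ n).re := by
        rw [← inner_conj_symm, RCLike.conj_re]
        have := hφ 0 n
        rw [sub_zero] at this
        rw [← this]; rfl
      rw [this]; ring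
    rw [h3]
    have h4 := hQ n hn
    have h5 : (‖x - (x0 : H)‖ ^ 2)⁻¹ ≤ 2 := by
      rw [inv_le_comm₀ (by positivity) (by norm_num)]
      linarith
    have h6 : (0 : ℝ) ≤ (‖x - (x0 : H)‖ ^ 2)⁻¹ := by positivity
    have h7 : (0 : ℝ) < 1 / ((i : ℝ) + 1) := by positivity
    have h8 : 0 ≤ 2 - 2 * (φ n).re := by rw [← h3]; positivity
    nlinarith
  have hsup : (⨆ n : {n | χ n = true}, ‖(U' ^ (n : ℤ)) y - y‖) < ε := by
    refine lt_of_le_of_lt (Real.iSup_le hle (Real.sqrt_nonneg _)) ?_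
    rw [Real.sqrt_lt' hε]
    linarith
  obtain ⟨z, hz0, hz⟩ := hK W U' ⟨y, hy1, hsup⟩
  have hzS : (z : H) ∈ S := by
    rw [hS]
    have := congrArg (Subtype.val : W → H) hz
    exact this
  have h10 : ⟪(z : H), (z : H)⟫_ℂ = 0 := (Submodule.mem_orthogonal _ _).1 z.2 _ hzS
  rw [inner_self_eq_zero] at h10
  exact hz0 (Subtype.ext h10)

theorem compl_K : (K)ᶜ = ⋂ i : ℕ, ⋃ N : ℕ, ⋃ k : ℕ, F i N k := by
  ext χ
  simp only [mem_iInter, mem_iUnion]
  constructor
  · intro h i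
    exact mem_F_of_not_kazhdan h i
  · intro h
    exact not_kazhdan_of_mem_F h

theorem isOpen_generating : IsOpen {χ : ℤ → Bool | IsGenerating {n | χ n = true}} := by
  have hfin : ∀ (Q : Set ℤ) (x : ℤ), x ∈ AddSubgroup.closure Q →
      ∃ s : Finset ℤ, (s : Set ℤ) ⊆ Q ∧ x ∈ AddSubgroup.closure (s : Set ℤ) := by
    intro Q x hx
    classical
    induction hx using AddSubgroup.closure_induction with
    | mem x hx => exact ⟨{x}, by simpa using hx, AddSubgroup.subset_closure (by simp)⟩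
    | zero => exact ⟨∅, by simp, zero_mem _⟩
    | add x y _ _ hx hy =>
      obtain ⟨s, hs, hxs⟩ := hx
      obtain ⟨t, ht, hyt⟩ := hy
      refine ⟨s ∪ t, by simp [hs, ht], add_mem ?_ ?_⟩
      · exact AddSubgroup.closure_mono (by simp) hxs
      · exact AddSubgroup.closure_mono (by simp) hyt
    | neg x _ hx =>
      obtain ⟨s, hs, hxs⟩ := hx
      exact ⟨s, hs, neg_mem hxs⟩
  rw [isOpen_iff_forall_mem_open]
  intro χ hχ
  have h1 : (1 : ℤ) ∈ AddSubgroup.closure {n | χ n = true} := by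
    have : AddSubgroup.closure {n | χ n = true} = ⊤ := hχ
    rw [this]; trivial
  obtain ⟨s, hs, h1s⟩ := hfin _ _ h1
  refine ⟨{ψ | ∀ n ∈ s, ψ n = true}, ?_, ?_, ?_⟩
  · intro ψ hψ
    show AddSubgroup.closure {n | ψ n = true} = ⊤
    rw [eq_top_iff]
    intro m _
    have h2 : (1 : ℤ) ∈ AddSubgroup.closure {n | ψ n = true} :=
      AddSubgroup.closure_mono (fun n hn => hψ n hn) h1s
    have := AddSubgroup.zsmul_mem _ h2 m
    simpa using this
  · have : {ψ : ℤ → Bool | ∀ n ∈ s, ψ n = true} = ⋂ n ∈ s, {ψ | ψ n = true} := by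
      ext ψ; simp
    rw [this]
    refine isOpen_biInter_finset fun n _ => ?_
    exact (isOpen_discrete ({true} : Set Bool)).preimage
      (continuous_apply (A := fun _ : ℤ => Bool) n)
  · intro n hn; exact hs hn

/-- Both families are Borel; in fact the complement of `K` is `F_σδ`. -/
theorem result : @MeasurableSet _ (borel (ℤ → Bool)) K ∧
    @MeasurableSet _ (borel (ℤ → Bool)) notK0 ∧
    ∃ C : ℕ → ℕ → Set (ℤ → Bool), (∀ i j, IsClosed (C i j)) ∧ Kᶜ = ⋂ i, ⋃ j, C i j := by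
  borelize (ℤ → Bool)
  have hK : MeasurableSet (Kᶜ : Set (ℤ → Bool)) := by
    rw [compl_K]
    exact MeasurableSet.iInter fun i => MeasurableSet.iUnion fun N => MeasurableSet.iUnion fun k =>
      (isClosed_F i N k).measurableSet
  refine ⟨by simpa using hK.compl, ?_, ?_⟩
  · have : notK0 = {χ : ℤ → Bool | IsGenerating {n | χ n = true}} ∩ Kᶜ := rfl
    rw [this]
    exact isOpen_generating.measurableSet.inter hK
  · refine ⟨fun i j => F i (Nat.unpair j).1 (Nat.unpair j).2, fun i j => isClosed_F _ _ _, ?_⟩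
    rw [compl_K]
    refine iInter_congr fun i => ?_
    ext χ
    simp only [mem_iUnion]
    constructor
    · rintro ⟨N, k, h⟩
      exact ⟨Nat.pair N k, by simpa using h⟩
    · rintro ⟨j, h⟩
      exact ⟨_, _, h⟩

end Pool.Agent.Results.MP_6f1842_lc.KazhdanBorel
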